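import Mathlib

namespace Pool.Agent.Results.MP_2f2576_co.NoLonelyUnbounded

universe u

/-- `X` is a no lonely colour graph: there are a set `C` of colours and a colouring `col` of the
edges of `X` such that (i) every vertex meets at most two edges of each colour, and (iii) in every
circuit (finite cycle), each edge has the same colour as some other edge of that circuit. -/
def IsNoLonelyColour {V : Type u} (X : SimpleGraph V) : Prop :=
  ∃ (C : Type u) (col : X.edgeSet → C),
    (∀ (v : V) (c : C), {e : X.edgeSet | v ∈ (e : Sym2 V) ∧ col e = c}.encard ≤ 2) ∧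
    (∀ (v : V) (p : X.Walk v v), p.IsCycle →
      ∀ e : X.edgeSet, (e : Sym2 V) ∈ p.edges →
        ∃ e' : X.edgeSet, (e' : Sym2 V) ∈ p.edges ∧ e' ≠ e ∧ col e' = col e)

/-- A counting lemma. -/
theorem exists_hitting {L P C : Type} [Fintype L] [DecidableEq L] [Fintype P] [DecidableEq P]
    [Fintype C] [DecidableEq C]
    (π : C → L → P)
    (h : Fintype.card C * (Fintype.card P - 1) ^ Fintype.card L
      < Fintype.card P ^ Fintype.card L) :
    ∃ E : L → P, ∀ c, ∃ l, E l = π c l := by
  by_contra hcon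
  push Not at hcon
  have hsub : (Finset.univ : Finset (L → P)) ⊆
      Finset.univ.biUnion (fun c : C => Fintype.piFinset (fun l => Finset.univ.erase (π c l))) := by
    intro E _
    obtain ⟨c, hc⟩ := hcon E
    rw [Finset.mem_biUnion]
    refine ⟨c, Finset.mem_univ _, ?_⟩
    rw [Fintype.mem_piFinset]
    intro l
    exact Finset.mem_erase.2 ⟨hc l, Finset.mem_univ _⟩
  have h1 := Finset.card_le_card hsub
  have h2 : (Finset.univ.biUnion
      (fun c : C => Fintype.piFinset (fun l => Finset.univ.erase (π c l)))).card ≤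
      Fintype.card C * (Fintype.card P - 1) ^ Fintype.card L := by
    refine (Finset.card_biUnion_le).trans ?_
    have : ∀ c ∈ (Finset.univ : Finset C),
        (Fintype.piFinset (fun l => Finset.univ.erase (π c l))).card
          = (Fintype.card P - 1) ^ Fintype.card L := by
      intro c _
      rw [Fintype.card_piFinset]
      simp [Finset.card_erase_of_mem]
    rw [Finset.sum_congr rfl this, Finset.sum_const, Finset.card_univ, smul_eq_mul]
  have h3 : (Finset.univ : Finset (L → P)).card = Fintype.card P ^ Fintype.card L := by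
    rw [Finset.card_univ, Fintype.card_fun]
  omega

theorem exists_exponent (M p : ℕ) (hp : 0 < p) : ∃ N : ℕ, M * (p - 1) ^ (N + 1) < p ^ (N + 1) := by
  have hp' : (0 : ℝ) < p := by exact_mod_cast hp
  have h1 : ((p - 1 : ℕ) : ℝ) / p < 1 := by
    rw [div_lt_one hp']
    have : p - 1 < p := Nat.sub_lt hp one_pos
    exact_mod_cast this
  have h0 : 0 ≤ ((p - 1 : ℕ) : ℝ) / p := by positivity
  obtain ⟨n, hn⟩ := exists_pow_lt_of_lt_one (show (0 : ℝ) < 1 / (M + 1) by positivity) h1
  refine ⟨n, ?_⟩
  have hn' : (((p - 1 : ℕ) : ℝ) / p) ^ (n + 1) < 1 / (M + 1) := by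
    refine lt_of_le_of_lt ?_ hn
    exact pow_le_pow_of_le_one h0 h1.le (Nat.le_succ n)
  rw [div_pow, div_lt_div_iff₀ (by positivity) (by positivity), one_mul] at hn'
  have h4 : ((M * (p - 1) ^ (n + 1) : ℕ) : ℝ) < ((p ^ (n + 1) : ℕ) : ℝ) := by
    push_cast
    refine lt_of_le_of_lt ?_ hn'
    rw [mul_comm]
    apply mul_le_mul_of_nonneg_left _ (by positivity)
    linarith
  exact_mod_cast h4

section Graph

variable {n : ℕ} {K : Type}

/-- Ordered pairs of distinct symbols. -/
abbrev Pair (K : Type) := {e : K × K // e.1 ≠ e.2}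

/-- The lines of the Hamming space: a direction and the remaining coordinates. -/
abbrev Ln (n : ℕ) (K : Type) := Fin (n + 1) × (Fin n → K)

/-- The graph having exactly one edge on every line, chosen by `E`. -/
def gr (E : Ln n K → Pair K) : SimpleGraph (Fin (n + 1) → K) where
  Adj x x' := ∃ l : Ln n K,
    (x = l.1.insertNth (E l).1.1 l.2 ∧ x' = l.1.insertNth (E l).1.2 l.2) ∨
    (x' = l.1.insertNth (E l).1.1 l.2 ∧ x = l.1.insertNth (E l).1.2 l.2)
  symm := ⟨fun _ _ ⟨l, h⟩ => ⟨l, h.symm⟩⟩
  loopless := ⟨by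
    rintro x ⟨l, h | h⟩
    · have h1 := congrFun (h.1.symm.trans h.2) l.1
      simp only [Fin.insertNth_apply_same] at h1
      exact (E l).2 h1
    · have h1 := congrFun (h.1.symm.trans h.2) l.1
      simp only [Fin.insertNth_apply_same] at h1
      exact (E l).2 h1⟩

/-- The set of coordinates in which two points differ. -/
def df (e : Sym2 (Fin (n + 1) → K)) : Set (Fin (n + 1)) :=
  Sym2.lift ⟨fun x x' => {i | x i ≠ x' i}, fun x x' => by
    ext i; exact ne_comm⟩ e

theorem df_mk (x x' : Fin (n + 1) → K) : df s(x, x') = {i | x i ≠ x' i} := rfl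

theorem adj_cases {E : Ln n K → Pair K} {x x' : Fin (n + 1) → K} (h : (gr E).Adj x x') :
    ∃ i : Fin (n + 1), (∀ j, x j ≠ x' j ↔ j = i) ∧
      ((x i = (E (i, i.removeNth x)).1.1 ∧ x' = i.insertNth (E (i, i.removeNth x)).1.2 (i.removeNth x)) ∨
       (x i = (E (i, i.removeNth x)).1.2 ∧ x' = i.insertNth (E (i, i.removeNth x)).1.1 (i.removeNth x))) := by
  obtain ⟨l, h | h⟩ := h
  · obtain ⟨h1, h2⟩ := h
    have hr : l.1.removeNth x = l.2 := by rw [h1]; simp
    refine ⟨l.1, ?_, Or.inl ?_⟩
    · intro j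
      rw [h1, h2]
      refine Fin.succAboveCases l.1 ?_ (fun k => ?_) j
      · simp only [Fin.insertNth_apply_same, iff_true]
        exact (E l).2
      · simp [Fin.succAbove_ne]
    · rw [hr]
      exact ⟨by rw [h1]; simp, h2⟩
  · obtain ⟨h1, h2⟩ := h
    have hr : l.1.removeNth x = l.2 := by rw [h2]; simp
    refine ⟨l.1, ?_, Or.inr ?_⟩
    · intro j
      rw [h1, h2]
      refine Fin.succAboveCases l.1 ?_ (fun k => ?_) j
      · simp only [Fin.insertNth_apply_same, iff_true]
        exact (E l).2.symm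
      · simp [Fin.succAbove_ne]
    · rw [hr]
      exact ⟨by rw [h2]; simp, h1⟩

theorem df_adj {E : Ln n K → Pair K} {x x' : Fin (n + 1) → K} (h : (gr E).Adj x x') :
    ∃ i, df s(x, x') = {i} := by
  obtain ⟨i, hi, -⟩ := adj_cases h
  refine ⟨i, ?_⟩
  rw [df_mk]
  ext j
  exact hi j

/-- At every vertex there is at most one edge with given difference set. -/
theorem unique_nb {E : Ln n K → Pair K} {x y z : Fin (n + 1) → K} (h1 : (gr E).Adj x y)
    (h2 : (gr E).Adj x z) (h : df s(x, y) = df s(x, z)) : y = z := by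
  obtain ⟨i, hi, h3⟩ := adj_cases h1
  obtain ⟨j, hj, h4⟩ := adj_cases h2
  have hij : i = j := by
    have : i ∈ df s(x, y) := by rw [df_mk]; exact (hi i).2 rfl
    rw [h, df_mk] at this
    exact (hj i).1 this
  subst hij
  have hne := (E (i, i.removeNth x)).2
  rcases h3 with h3 | h3 <;> rcases h4 with h4 | h4
  · rw [h3.2, h4.2]
  · exact absurd (h3.1.symm.trans h4.1) hne
  · exact absurd (h4.1.symm.trans h3.1) hne
  · rw [h3.2, h4.2]

theorem noLonely (E : Ln n K → Pair K) : IsNoLonelyColour (gr E) := by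
  refine ⟨ULift (Set (Fin (n + 1))), fun e => ⟨df e.1⟩, ?_, ?_⟩
  · intro v c
    have hsub : {e : (gr E).edgeSet | v ∈ (e : Sym2 _) ∧ (⟨df e.1⟩ : ULift _) = c}.Subsingleton := by
      rintro ⟨e, he⟩ ⟨hv, hc⟩ ⟨e', he'⟩ ⟨hv', hc'⟩
      apply Subtype.ext
      simp only at hv hv' hc hc'
      show e = e'
      obtain ⟨y, rfl⟩ := Sym2.mem_iff_exists.1 hv
      obtain ⟨z, rfl⟩ := Sym2.mem_iff_exists.1 hv'
      have hyz : y = z := unique_nb he he' (ULift.up_injective (hc.trans hc'.symm))
      rw [hyz]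
    exact (Set.encard_le_one_iff_subsingleton.2 hsub).trans (by norm_num)
  · rintro v p hp ⟨e, he⟩ hep
    simp only at hep
    by_contra hcon
    push Not at hcon
    induction e using Sym2.ind with
    | _ x x' =>
    have hadj : (gr E).Adj x x' := he
    obtain ⟨i, hi⟩ := df_adj hadj
    -- the graph formed by the edges of the circuit
    let Y : SimpleGraph (Fin (n + 1) → K) := SimpleGraph.fromEdgeSet {e | e ∈ p.edges}
    have hY : ∀ e ∈ p.edges, e ∈ Y.edgeSet := by
      intro e he
      rw [SimpleGraph.edgeSet_fromEdgeSet]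
      exact ⟨he, fun hd => (gr E).not_isDiag_of_mem_edgeSet (p.edges_subset_edgeSet he) hd⟩
    have hcyc : (p.transfer Y hY).IsCycle := hp.transfer hY
    have hmem : s(x, x') ∈ (p.transfer Y hY).edges := by
      rw [SimpleGraph.Walk.edges_transfer]; exact hep
    have hreach := (SimpleGraph.adj_and_reachable_delete_edges_iff_exists_cycle.2
      ⟨v, p.transfer Y hY, hcyc, hmem⟩).2
    obtain ⟨w⟩ := hreach
    have inv : ∀ (a b : Fin (n + 1) → K) (w : (Y \ SimpleGraph.fromEdgeSet {s(x, x')}).Walk a b),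
        a i = b i := by
      intro a b w
      induction w with
      | nil => rfl
      | @cons a b c hab q ih =>
        rw [← ih]
        rw [SimpleGraph.sdiff_adj] at hab
        obtain ⟨hab1, hab2⟩ := hab
        rw [SimpleGraph.fromEdgeSet_adj] at hab1 hab2
        have hmem' : s(a, b) ∈ p.edges := hab1.1
        have hne : s(a, b) ≠ s(x, x') := fun hh => hab2 ⟨hh, hab1.2⟩
        have hedge : s(a, b) ∈ (gr E).edgeSet := p.edges_subset_edgeSet hmem'
        have h5 := hcon ⟨s(a, b), hedge⟩ hmem' (fun hh => hne (congrArg Subtype.val hh))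
        by_contra hab3
        apply h5
        obtain ⟨j, hj⟩ := df_adj (E := E) hedge
        have : i ∈ df s(a, b) := by rw [df_mk]; exact hab3
        rw [hj] at this
        have hij : i = j := this
        show (⟨df s(a, b)⟩ : ULift _) = ⟨df s(x, x')⟩
        rw [hj, hi, hij]
    have h6 : i ∈ df s(x, x') := by rw [hi]; rfl
    rw [df_mk] at h6
    exact h6 (inv x x' w)

end Graph

theorem main (m : ℕ) : ∃ (V : Type) (_ : Finite V) (X : SimpleGraph V),
    IsNoLonelyColour X ∧ ¬ X.Colorable m := by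
  classical
  let K := Fin (m + 2)
  obtain ⟨n, hn⟩ := exists_exponent ((m + 1) ^ Fintype.card K) (Fintype.card (Pair K))
    (Fintype.card_pos_iff.2 ⟨⟨(0, 1), by simp⟩⟩)
  have hex : ∀ (c : (Fin (n + 1) → K) → Fin (m + 1)) (l : Ln n K), ∃ e : Pair K,
      c (l.1.insertNth e.1.1 l.2) = c (l.1.insertNth e.1.2 l.2) := by
    intro c l
    by_contra hcon
    push Not at hcon
    have hinj : Function.Injective (fun a : K => c (l.1.insertNth a l.2)) := by
      intro a b hab
      by_contra hne
      exact hcon ⟨(a, b), hne⟩ hab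
    have := Fintype.card_le_of_injective _ hinj
    simp [K] at this
  choose π hπ using hex
  have hcount : Fintype.card ((Fin (n + 1) → K) → Fin (m + 1)) *
      (Fintype.card (Pair K) - 1) ^ Fintype.card (Ln n K) <
      Fintype.card (Pair K) ^ Fintype.card (Ln n K) := by
    have e1 : Fintype.card ((Fin (n + 1) → K) → Fin (m + 1)) =
        ((m + 1) ^ Fintype.card K) ^ (Fintype.card K ^ n) := by
      simp only [Fintype.card_fun, Fintype.card_fin, K]
      rw [← pow_mul, pow_succ' (m + 2) n]
    have e2 : Fintype.card (Ln n K) = (n + 1) * Fintype.card K ^ n := by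
      simp only [Fintype.card_prod, Fintype.card_fun, Fintype.card_fin, K]
    rw [e1, e2, pow_mul, pow_mul, ← mul_pow]
    exact Nat.pow_lt_pow_left hn (pow_pos (by simp [K]) n).ne'
  obtain ⟨E, hE⟩ := exists_hitting π hcount
  refine ⟨Fin (n + 1) → K, inferInstance, gr E, noLonely E, ?_⟩
  intro hcol
  obtain ⟨c⟩ := hcol.mono (Nat.le_succ m)
  obtain ⟨l, hl⟩ := hE c
  have hadj : (gr E).Adj (l.1.insertNth (E l).1.1 l.2) (l.1.insertNth (E l).1.2 l.2) :=
    ⟨l, Or.inl ⟨rfl, rfl⟩⟩
  apply c.valid hadj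
  rw [hl]
  exact hπ c l

/-- For every `m` there is a (finite) no lonely colour graph of chromatic number larger
than `m`. -/
theorem result : ∀ m : ℕ, ∃ (V : Type) (_ : Finite V) (X : SimpleGraph V),
    IsNoLonelyColour X ∧ (m : ℕ∞) < X.chromaticNumber := by
  intro m
  obtain ⟨V, i1, X, hX, hm⟩ := main m
  refine ⟨V, i1, X, hX, ?_⟩
  by_contra hlt
  exact hm (SimpleGraph.chromaticNumber_le_iff_colorable.1 (not_lt.1 hlt))

end Pool.Agent.Results.MP_2f2576_co.NoLonelyUnbounded
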